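import Pool.Agent.Helper75.KT.S4Defs

/-!
# K-theory of the 4-sphere

Piece L4 of the formalisation for MP_0ce5f1_an: the clutching identity on `S⁴` and the transfer
theorem for `CP²` give `K_0(C(S⁴)) = ℤ ⊕ ℤ b` with `b = [pB] - 2`.
-/

set_option linter.unusedSectionVars false

namespace Pool.Agent.Helper75.KT

open Matrix Filter Topology CPd
open scoped Kronecker ComplexOrder Matrix.Norms.L2Operator

/-- the statement of the quantisation theorem (offer L3) -/
def QuantStmt : Prop := ∀ d : ℕ, 2 ≤ d → ∃ A : AQ (CPd d), (∀ n, A.T n 1 = 1) ∧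
    (∀ n, Fintype.card (A.α n) = (n + d - 1).choose (d - 1)) ∧
    A.NearRank (taut d) (fun n => (n + d).choose (d - 1)) ∧
    A.NearRank (tautB d) (fun n => (n + d - 2).choose (d - 1))

/-! ### Clutching over the sphere -/

section ClutchS4

/-- inner product of two points of the sphere, written out -/
noncomputable def ip4 (s t : S4) : ℝ := ∑ a, s.1 a * t.1 a

theorem ip4_comm (s t : S4) : ip4 s t = ip4 t s := by
  unfold ip4
  exact Finset.sum_congr rfl fun a _ => mul_comm _ _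

theorem ip4_sq (s t : S4) : ∑ a, (s.1 a + t.1 a) * (s.1 a + t.1 a) = 2 + 2 * ip4 s t := by
  have h : ∀ a, (s.1 a + t.1 a) * (s.1 a + t.1 a)
      = s.1 a * s.1 a + t.1 a * t.1 a + 2 * (s.1 a * t.1 a) := fun a => by ring
  rw [Finset.sum_congr rfl fun a _ => h a, Finset.sum_add_distrib, Finset.sum_add_distrib,
    S4_sum, S4_sum, ← Finset.mul_sum, ip4]
  ring

theorem ip4_nonneg (s t : S4) : 0 ≤ (1 + ip4 s t) / 2 := by
  have h := ip4_sq s t
  have h2 : 0 ≤ ∑ a, (s.1 a + t.1 a) * (s.1 a + t.1 a) :=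
    Finset.sum_nonneg fun a _ => mul_self_nonneg _
  linarith

theorem ip4_eq (s t : S4) (h : (1 + ip4 s t) / 2 = 0) (a : Fin 5) : s.1 a = - t.1 a := by
  have h1 := ip4_sq s t
  have h2 : ∑ a, (s.1 a + t.1 a) * (s.1 a + t.1 a) = 0 := by rw [h1]; linarith
  have h3 := (Finset.sum_eq_zero_iff_of_nonneg (fun a _ => mul_self_nonneg _)).1 h2 a
    (Finset.mem_univ _)
  have h4 := mul_self_eq_zero.1 h3
  linarith

variable {X : Type*} [TopologicalSpace X] [CompactSpace X]

/-- The function `(1 + s·t)/2`. -/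
noncomputable def ipf (s t : C(X, S4)) : C(X, ℂ) :=
  ⟨fun x => (((1 + ip4 (s x) (t x)) / 2 : ℝ) : ℂ), by unfold ip4; fun_prop⟩

theorem ipf_apply (s t : C(X, S4)) (x : X) :
    ipf s t x = (((1 + ip4 (s x) (t x)) / 2 : ℝ) : ℂ) := rfl

/-- Clutching over the sphere: if `G` and `G'` agree where `s = -t` then
`([G] - [G']) (s^*[pB] - t^*[pB]) = 0`. -/
theorem clutch_S4 (s t : C(X, S4)) {n : ℕ} (G G' : Matrix (Fin n) (Fin n) C(X, ℂ))
    (hG : IsPr G) (hG' : IsPr G')
    (h : ∀ x, (∀ a, (s x).1 a = - (t x).1 a) → evM x G = evM x G') :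
    (kcl G - kcl G') * (pb s (kcl pB) - pb t (kcl pB)) = 0 := by
  rw [pb_kcl s pB_pr, pb_kcl t pB_pr]
  set E := pB.map (pbA s) with hE
  set F := pB.map (pbA t) with hF
  have hEp : IsPr E := pB_pr.map _
  have hFp : IsPr F := pB_pr.map _
  have hEe : ∀ x, evM x E = pb4 (fun a => (s x).1 a) := fun x => by
    rw [hE, evM_pb, evM_pB]
  have hFe : ∀ x, evM x F = pb4 (fun a => (t x).1 a) := fun x => by
    rw [hF, evM_pb, evM_pB]
  have hzero : ∀ x, ipf s t x = 0 → evM x G = evM x G' := by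
    intro x hx
    apply h x
    intro a
    rw [ipf_apply] at hx
    exact ip4_eq _ _ (by exact_mod_cast hx) a
  refine clutch G G' E F hG hG' hEp hFp (F * E) (ipf s t) ?_ ?_ ?_ ?_ ?_ (G' * G) ?_ ?_ ?_ ?_
  · rw [← Matrix.mul_assoc, hFp.1]
  · rw [Matrix.mul_assoc, hEp.1]
  · rw [conjTranspose_mul, hFp.2, hEp.2]
    have e1 : E * F * (F * E) = E * F * E := by
      rw [Matrix.mul_assoc, ← Matrix.mul_assoc F F E, hFp.1, ← Matrix.mul_assoc]
    rw [e1]
    apply evM_ext
    intro x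
    rw [evM_mul, evM_mul, evM_smul, hEe, hFe, ipf_apply]
    exact pb4_mul_mul _ _ (S4_sum (s x))
  · rw [conjTranspose_mul, hFp.2, hEp.2]
    have e1 : F * E * (E * F) = F * E * F := by
      rw [Matrix.mul_assoc, ← Matrix.mul_assoc E E F, hEp.1, ← Matrix.mul_assoc]
    rw [e1]
    apply evM_ext
    intro x
    rw [evM_mul, evM_mul, evM_smul, hEe, hFe, ipf_apply, ip4_comm]
    exact pb4_mul_mul _ _ (S4_sum (t x))
  · intro x
    rw [ipf_apply]
    exact_mod_cast ip4_nonneg (s x) (t x)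
  · rw [← Matrix.mul_assoc, hG'.1]
  · rw [Matrix.mul_assoc, hG.1]
  · intro x hx
    rw [evM_mul, evM_conjT, evM_mul, ← hzero x hx, (hG.evM x).1, (hG.evM x).2, (hG.evM x).1]
  · intro x hx
    rw [evM_mul, evM_conjT, evM_mul, ← hzero x hx, (hG.evM x).1, (hG.evM x).2, (hG.evM x).1]

end ClutchS4

/-- the antipodal map -/
noncomputable def negS4 : C(S4, S4) := ⟨fun s => -s, continuous_neg⟩

theorem negS4_apply (s : S4) (a : Fin 5) : (negS4 s).1 a = - s.1 a := rfl

theorem pb_neg : pb negS4 (kcl pB) = 4 - kcl pB := by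
  rw [pb_kcl _ pB_pr]
  have : pB.map (pbA negS4) = 1 - pB := by
    apply evM_ext
    intro x
    rw [evM_pb, evM_pB, evM_sub, evM_one, evM_pB, ← pb4_neg]
    rfl
  rw [this, kcl_compl pB_pr, Fintype.card_fin]
  norm_num

/-- the rank of a projection at a point, as a natural number -/
theorem S4aux.exists_rank {n : ℕ} {p : Matrix (Fin n) (Fin n) C(S4, ℂ)} (hp : IsPr p) (t : S4) :
    ∃ r : ℕ, (evM t p).trace = r := by
  obtain ⟨r, _, hr⟩ := pr_eqv_one (evM t p) (hp.evM t)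
  exact ⟨r, hr⟩

/-- `[p] b = r b` where `r` is the rank of `p` at `t`. -/
theorem kcl_mul_b {n : ℕ} {p : Matrix (Fin n) (Fin n) C(S4, ℂ)} (hp : IsPr p) (t : S4) (r : ℕ)
    (hr : (evM t p).trace = r) : kcl p * (kcl pB - 2) = r * (kcl pB - 2) := by
  have h := clutch_S4 (X := S4) (ContinuousMap.id S4) (ContinuousMap.const S4 (negS4 t)) p
    (cM S4 (evM t p)) hp (cM_pr (hp.evM t)) (by
      intro x hx
      have hxt : x = t := by
        apply Subtype.ext
        ext a
        have := hx a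
        rw [ContinuousMap.const_apply, negS4_apply, neg_neg] at this
        exact this
      rw [evM_cM, hxt])
  rw [kcl_cM_trace S4 (evM t p) (hp.evM t) r hr, pb_id] at h
  have h2 : pb (ContinuousMap.const S4 (negS4 t)) (kcl pB) = (2 : K0 C(S4, ℂ)) := by
    rw [pb_kcl _ pB_pr]
    have e : pB.map (pbA (ContinuousMap.const S4 (negS4 t))) = cM S4 (evM (negS4 t) pB) := by
      apply evM_ext
      intro x
      rfl
    rw [e, kcl_cM_trace S4 (evM (negS4 t) pB) (pB_pr.evM _) 2 (by rw [pB_trace]; norm_num)]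
    norm_num
  rw [h2] at h
  linear_combination h

/-- a point of the sphere -/
noncomputable def pt4 : S4 := ⟨EuclideanSpace.single 0 1, by simp⟩

theorem b_sq : (kcl pB - 2) ^ 2 = 0 := by
  have h := kcl_mul_b pB_pr pt4 2 (by rw [pB_trace]; norm_num)
  have h2 : ((2 : ℕ) : K0 C(S4, ℂ)) = 2 := by norm_num
  rw [h2] at h
  linear_combination h

/-! ### The map `CP² → S⁴` -/

section Gmap

/-- an entry of the projection as a real vector of length 5 -/
noncomputable def gvec (p : CPd 3) : EuclideanSpace ℝ (Fin 5) :=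
  !₂[2 * (p.1 2 2).re - 1, 2 * (p.1 0 2).re, 2 * (p.1 0 2).im, 2 * (p.1 1 2).re,
    2 * (p.1 1 2).im]

theorem S4aux.conj (p : CPd 3) (i j : Fin 3) : star (p.1 i j) = p.1 j i := by
  have := congrFun (congrFun p.pr.2 j) i
  rwa [conjTranspose_apply] at this

theorem S4aux.rank1 {d : ℕ} (p : CPd d) (a b i j : Fin d) :
    p.1 a i * p.1 b j = p.1 a j * p.1 b i := by
  obtain ⟨v, hv, _⟩ := p.exists_col
  rw [← hv]
  simp only [Matrix.mul_apply, Finset.univ_unique, Finset.sum_singleton, conjTranspose_apply]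
  ring

theorem gvec_norm (p : CPd 3) : gvec p ∈ Metric.sphere (0 : EuclideanSpace ℝ (Fin 5)) 1 := by
  rw [mem_sphere_zero_iff_norm]
  have h0 : ‖gvec p‖ ^ 2 = 1 := by
    rw [EuclideanSpace.norm_sq_eq]
    have h1 := congrFun (congrFun p.pr.1 2) 2
    rw [Matrix.mul_apply, Fin.sum_univ_three, ← S4aux.conj p 0 2, ← S4aux.conj p 1 2] at h1
    have him : (p.1 2 2).im = 0 := by
      have := S4aux.conj p 2 2
      have h2 := congrArg Complex.im this
      simp only [RCLike.star_def, Complex.conj_im] at h2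
      linarith
    have hre := congrArg Complex.re h1
    simp only [RCLike.star_def, Complex.add_re, Complex.mul_re, Complex.conj_re,
      Complex.conj_im, him] at hre
    simp only [gvec, Fin.sum_univ_five, Real.norm_eq_abs, sq_abs]
    simp
    nlinarith
  have h1 : (‖gvec p‖ - 1) * (‖gvec p‖ + 1) = 0 := by linarith
  rcases mul_eq_zero.1 h1 with h | h
  · linarith
  · linarith [norm_nonneg (gvec p)]

theorem S4aux.continuous_entry {d : ℕ} (i j : Fin d) : Continuous fun p : CPd d => p.1 i j :=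
  (continuous_apply j).comp ((continuous_apply i).comp continuous_subtype_val)

/-- the degree one map `CP² → S⁴` -/
noncomputable def gmap : C(CPd 3, S4) where
  toFun p := ⟨gvec p, gvec_norm p⟩
  continuous_toFun := by
    refine Continuous.subtype_mk ?_ _
    unfold gvec
    refine (PiLp.continuous_toLp 2 _).comp ?_
    refine continuous_pi fun i => ?_
    have h22 := S4aux.continuous_entry (d := 3) 2 2
    have h02 := S4aux.continuous_entry (d := 3) 0 2
    have h12 := S4aux.continuous_entry (d := 3) 1 2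
    fin_cases i
    · exact (continuous_const.mul (Complex.continuous_re.comp h22)).sub continuous_const
    · exact continuous_const.mul (Complex.continuous_re.comp h02)
    · exact continuous_const.mul (Complex.continuous_im.comp h02)
    · exact continuous_const.mul (Complex.continuous_re.comp h12)
    · exact continuous_const.mul (Complex.continuous_im.comp h12)

/-- the Bott projection at `g(p)`, in coordinates -/
theorem pb4_gvec (p : CPd 3) : pb4 (fun a => (gmap p).1 a) =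
    !![p.1 2 2, 0, p.1 2 0, p.1 2 1;
       0, p.1 2 2, -(p.1 1 2), p.1 0 2;
       p.1 0 2, -(p.1 2 1), 1 - p.1 2 2, 0;
       p.1 1 2, p.1 2 0, 0, 1 - p.1 2 2] := by
  have e0 : (gmap p).1 0 = 2 * (p.1 2 2).re - 1 := rfl
  have e1 : (gmap p).1 1 = 2 * (p.1 0 2).re := rfl
  have e2 : (gmap p).1 2 = 2 * (p.1 0 2).im := rfl
  have e3 : (gmap p).1 3 = 2 * (p.1 1 2).re := rfl
  have e4 : (gmap p).1 4 = 2 * (p.1 1 2).im := rfl
  have him : (p.1 2 2).im = 0 := by
    have := S4aux.conj p 2 2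
    have h2 := congrArg Complex.im this
    simp only [RCLike.star_def, Complex.conj_im] at h2
    linarith
  have h20 : p.1 2 0 = star (p.1 0 2) := (S4aux.conj p 0 2).symm
  have h21 : p.1 2 1 = star (p.1 1 2) := (S4aux.conj p 1 2).symm
  rw [h20, h21]
  unfold pb4 gs
  simp only [Fin.sum_univ_five]
  rw [e0, e1, e2, e3, e4]
  ext i j
  fin_cases i <;> fin_cases j <;>
    simp [gam, Complex.ext_iff, him] <;> ring_nf

/-- `ι(z₁,z₂,z₃) = (z₃,0,z₁,z₂)` -/
def iotaM : Matrix (Fin 4) (Fin 3) ℂ :=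
  !![0, 0, 1; 0, 0, 0; 1, 0, 0; 0, 1, 0]

/-- `κ(w₁,w₂,w₃) = (0,w₃,-w₂,w₁)` -/
def kappaM : Matrix (Fin 4) (Fin 3) ℂ :=
  !![0, 0, 0; 0, 0, 1; 0, -1, 0; 1, 0, 0]

theorem S4aux.iotaM_isom : iotaMᴴ * iotaM = 1 := by
  ext i j
  fin_cases i <;> fin_cases j <;> simp [iotaM, Matrix.mul_apply, Fin.sum_univ_four]

theorem S4aux.kappaM_isom : kappaMᴴ * kappaM = 1 := by
  ext i j
  fin_cases i <;> fin_cases j <;> simp [kappaM, Matrix.mul_apply, Fin.sum_univ_four]

theorem S4aux.iota_kappa (p : CPd 3) : p.1 * (iotaMᴴ * kappaM) * (p.1)ᵀ = 0 := by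
  have hr := S4aux.rank1 p
  have e : iotaMᴴ * kappaM = !![0, -1, 0; 1, 0, 0; 0, 0, 0] := by
    ext i j
    fin_cases i <;> fin_cases j <;> simp [iotaM, kappaM, Matrix.mul_apply, Fin.sum_univ_four]
  rw [e]
  ext a b
  simp only [Matrix.mul_apply, Fin.sum_univ_three, Matrix.transpose_apply]
  simp
  have := hr a b 0 1
  linear_combination -this

theorem S4aux.sum_diag (p : CPd 3) : p.1 0 0 + p.1 1 1 = 1 - p.1 2 2 := by
  have := p.tr
  rw [Matrix.trace, Fin.sum_univ_three] at this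
  simp only [Matrix.diag] at this
  linear_combination this

theorem S4aux.iota_p_kappa (p : CPd 3) :
    iotaM * p.1 * iotaMᴴ + kappaM * (p.1)ᵀ * kappaMᴴ = pb4 (fun a => (gmap p).1 a) := by
  rw [pb4_gvec]
  have hs := S4aux.sum_diag p
  ext i j
  simp only [Matrix.add_apply, Matrix.mul_apply, Fin.sum_univ_three, Matrix.transpose_apply,
    conjTranspose_apply]
  fin_cases i <;> fin_cases j <;> simp [iotaM, kappaM]
  · exact hs
  · linear_combination hs

theorem pB_gmap : Eqv (pB.map (pbA gmap)) (Matrix.fromBlocks (taut 3) 0 0 (tautB 3)) := by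
  have hP : IsPr (taut 3) := taut_pr
  have hQ : IsPr (tautB 3) := tautB_pr
  set P := taut 3 with hPdef
  set Q := tautB 3 with hQdef
  set I := cM (CPd 3) iotaM with hI
  set J := cM (CPd 3) kappaM with hJ
  have hII : Iᴴ * I = 1 := by
    apply evM_ext
    intro x
    rw [evM_mul, evM_conjT, evM_one]
    exact S4aux.iotaM_isom
  have hJJ : Jᴴ * J = 1 := by
    apply evM_ext
    intro x
    rw [evM_mul, evM_conjT, evM_one]
    exact S4aux.kappaM_isom
  have hPQ : P * (Iᴴ * J) * Q = 0 := by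
    apply evM_ext
    intro x
    rw [evM_mul, evM_mul, evM_mul, evM_conjT, evM_zero]
    exact S4aux.iota_kappa x
  have hsum : I * P * Iᴴ + J * Q * Jᴴ = pB.map (pbA gmap) := by
    apply evM_ext
    intro x
    rw [evM_add, evM_mul, evM_mul, evM_mul, evM_mul, evM_conjT, evM_conjT, evM_pb, evM_pB]
    exact S4aux.iota_p_kappa x
  have hAA : (I * P)ᴴ * (I * P) = P := by
    rw [conjTranspose_mul, hP.2]
    calc P * Iᴴ * (I * P) = P * (Iᴴ * I) * P := by simp only [Matrix.mul_assoc]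
      _ = P := by rw [hII, Matrix.mul_one, hP.1]
  have hBB : (J * Q)ᴴ * (J * Q) = Q := by
    rw [conjTranspose_mul, hQ.2]
    calc Q * Jᴴ * (J * Q) = Q * (Jᴴ * J) * Q := by simp only [Matrix.mul_assoc]
      _ = Q := by rw [hJJ, Matrix.mul_one, hQ.1]
  have hAB : (I * P)ᴴ * (J * Q) = 0 := by
    rw [conjTranspose_mul, hP.2]
    calc P * Iᴴ * (J * Q) = P * (Iᴴ * J) * Q := by simp only [Matrix.mul_assoc]
      _ = 0 := hPQ
  have hBA : (J * Q)ᴴ * (I * P) = 0 := by
    have := congrArg conjTranspose hAB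
    rwa [conjTranspose_mul, conjTranspose_conjTranspose, conjTranspose_zero] at this
  have hA' : (I * P) * (I * P)ᴴ = I * P * Iᴴ := by
    rw [conjTranspose_mul, hP.2]
    calc I * P * (P * Iᴴ) = I * (P * P) * Iᴴ := by simp only [Matrix.mul_assoc]
      _ = I * P * Iᴴ := by rw [hP.1]
  have hB' : (J * Q) * (J * Q)ᴴ = J * Q * Jᴴ := by
    rw [conjTranspose_mul, hQ.2]
    calc J * Q * (Q * Jᴴ) = J * (Q * Q) * Jᴴ := by simp only [Matrix.mul_assoc]
      _ = J * Q * Jᴴ := by rw [hQ.1]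
  have hvv : (Matrix.fromCols (I * P) (J * Q))ᴴ * Matrix.fromCols (I * P) (J * Q)
      = Matrix.fromBlocks P 0 0 Q := by
    rw [conjTranspose_fromCols_eq_fromRows_conjTranspose, Matrix.fromRows_mul_fromCols, hAA, hBB,
      hAB, hBA]
  refine ⟨Matrix.fromCols (I * P) (J * Q), ?_, hvv, ?_⟩
  · rw [conjTranspose_fromCols_eq_fromRows_conjTranspose, Matrix.fromCols_mul_fromRows, hA', hB',
      hsum]
  · rw [Matrix.mul_assoc, hvv, Matrix.fromCols_mul_fromBlocks, Matrix.mul_zero, Matrix.mul_zero,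
      add_zero, zero_add, Matrix.mul_assoc, Matrix.mul_assoc, hP.1, hQ.1]

end Gmap

/-- the tautological projection as a section of its tensor product with its conjugate -/
noncomputable def S4aux.vecTaut (d : ℕ) : Matrix (Fin d × Fin d) (Fin 1) C(CPd d, ℂ) :=
  Matrix.of fun a _ => taut d a.1 a.2

theorem taut_mul_tautB (d : ℕ) : kcl (taut d) * kcl (tautB d) = 1 := by
  rw [← kcl_kron taut_pr tautB_pr, one_eq_kcl]
  apply Eqv.kcl_eq
  have hconj : ∀ (p : CPd d) (i j : Fin d), star (p.1 i j) = p.1 j i := by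
    intro p i j
    have := congrFun (congrFun p.pr.2 j) i
    rwa [conjTranspose_apply] at this
  have h1 : S4aux.vecTaut d * (S4aux.vecTaut d)ᴴ = taut d ⊗ₖ tautB d := by
    ext ⟨i, k⟩ ⟨j, l⟩ p
    simp only [Matrix.mul_apply, Finset.univ_unique, Finset.sum_singleton, conjTranspose_apply,
      ContinuousMap.mul_apply, ContinuousMap.star_apply, kroneckerMap_apply, tautB,
      Matrix.transpose_apply]
    change p.1 i k * star (p.1 j l) = p.1 i j * p.1 l k
    rw [hconj, S4aux.rank1 p i l k j]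
  have h2 : (S4aux.vecTaut d)ᴴ * S4aux.vecTaut d = 1 := by
    ext i j p
    obtain rfl := Subsingleton.elim i j
    rw [Matrix.one_apply_eq, Matrix.mul_apply, ContinuousMap.sum_apply]
    simp only [conjTranspose_apply, ContinuousMap.mul_apply, ContinuousMap.star_apply,
      ContinuousMap.one_apply]
    change ∑ a : Fin d × Fin d, star (p.1 a.1 a.2) * p.1 a.1 a.2 = 1
    rw [Fintype.sum_prod_type]
    have h3 : ∀ x y, star (p.1 x y) * p.1 x y = p.1 x y * p.1 y x := fun x y => by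
      rw [hconj, mul_comm]
    simp only [h3]
    have h4 : ∀ x, ∑ y, p.1 x y * p.1 y x = p.1 x x := by
      intro x
      have := congrFun (congrFun p.pr.1 x) x
      rwa [Matrix.mul_apply] at this
    simp only [h4]
    exact p.tr
  exact ⟨_, h1, h2, by rw [Matrix.mul_assoc, h2, Matrix.mul_one]⟩

/-! ### The computation -/

theorem pb_gmap_pB : pb gmap (kcl pB) = kcl (taut 3) + kcl (tautB 3) := by
  rw [pb_kcl _ pB_pr, pB_gmap.kcl_eq, kcl_fromBlocks taut_pr tautB_pr]

theorem S4aux.choose_second_diff (n : ℕ) :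
    (n + 3).choose 2 + (n + 1).choose 2 = 2 * (n + 2).choose 2 + 1 := by
  have h1 : (n + 3).choose 2 = (n + 2).choose 1 + (n + 2).choose 2 := Nat.choose_succ_succ _ _
  have h2 : (n + 2).choose 2 = (n + 1).choose 1 + (n + 1).choose 2 := Nat.choose_succ_succ _ _
  rw [Nat.choose_one_right] at h1 h2
  omega

theorem K0_S4_span_kcl (hquant : QuantStmt) {n : ℕ} {p : Matrix (Fin n) (Fin n) C(S4, ℂ)}
    (hp : IsPr p) : ∃ m k : ℤ, kcl p = m + k * (kcl pB - 2) := by
  obtain ⟨A, hA1, hAc, hAt, hAb⟩ := hquant 3 (by norm_num)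
  obtain ⟨r, hr⟩ := S4aux.exists_rank hp pt4
  have hpb := kcl_mul_b hp pt4 r hr
  obtain ⟨c, hc⟩ := A.exists_nearRank (hp.map (pbA gmap))
  -- clutching on `S⁴ × CP²`
  have hcl := clutch_S4 (X := S4 × CPd 3) (AQ.fstC S4 (CPd 3))
    ((negS4.comp gmap).comp (AQ.sndC S4 (CPd 3))) (p.map (pbA (AQ.fstC S4 (CPd 3))))
    ((p.map (pbA gmap)).map (pbA (AQ.sndC S4 (CPd 3)))) (hp.map _) ((hp.map _).map _) (by
      intro x hx
      rw [evM_pb, evM_pb, evM_pb]
      congr 1
      apply Subtype.ext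
      ext a
      have := hx a
      simp only [ContinuousMap.comp_apply, negS4_apply, neg_neg] at this
      exact this)
  have e1 : pb ((negS4.comp gmap).comp (AQ.sndC S4 (CPd 3))) (kcl pB)
      = 4 - (pb (AQ.sndC S4 (CPd 3)) (kcl (taut 3)) + pb (AQ.sndC S4 (CPd 3)) (kcl (tautB 3))) := by
    rw [← pb_comp, ← pb_comp, pb_neg, map_sub, map_sub, pb_gmap_pB, map_add, map_ofNat, map_ofNat]
  rw [e1, ← pb_kcl _ hp, ← pb_kcl _ (hp.map _)] at hcl
  -- consequences of `[p] b = r b`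
  have f1 := congrArg (pb (AQ.fstC S4 (CPd 3))) hpb
  have f2 := congrArg (pb (AQ.sndC S4 (CPd 3))) (congrArg (pb gmap) hpb)
  simp only [map_mul, map_sub, map_natCast, map_ofNat, pb_gmap_pB, pb_kcl gmap hp, map_add]
    at f1 f2
  -- the transfer
  have t1 := A.tr_box (X := S4) (kcl p - r) taut_pr hAt
  have t2 := A.tr_box (X := S4) (kcl p - r) tautB_pr hAb
  have t3 := A.tr_box (X := S4) (-2 * kcl p + r * (kcl pB - 2) + 2 * r)
    (IsPr.one (ι := Fin 1)) (A.tc_one_rank hA1)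
  have t4 := A.tr_box (X := S4) (-(kcl pB - 2)) (hp.map (pbA gmap)) hc
  have t := AQ.Tr.add A (AQ.Tr.add A t1 t2) (AQ.Tr.add A t3 t4)
  have hz : pb (AQ.fstC S4 (CPd 3)) (kcl p - r) * pb (AQ.sndC S4 (CPd 3)) (kcl (taut 3))
      + pb (AQ.fstC S4 (CPd 3)) (kcl p - r) * pb (AQ.sndC S4 (CPd 3)) (kcl (tautB 3))
      + (pb (AQ.fstC S4 (CPd 3)) (-2 * kcl p + r * (kcl pB - 2) + 2 * r)
          * pb (AQ.sndC S4 (CPd 3)) (kcl (1 : Matrix (Fin 1) (Fin 1) C(CPd 3, ℂ)))
        + pb (AQ.fstC S4 (CPd 3)) (-(kcl pB - 2))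
          * pb (AQ.sndC S4 (CPd 3)) (kcl (p.map (pbA gmap)))) = 0 := by
    rw [← one_eq_kcl]
    simp only [map_mul, map_sub, map_add, map_natCast, map_ofNat, map_neg, map_one]
    linear_combination hcl - f1 + f2
  rw [hz] at t
  obtain ⟨N, hN⟩ := (AQ.Tr.zero A hA1 t).exists
  simp only [Pi.add_apply] at hN
  have hD : Fintype.card (A.α N) = (N + 2).choose 2 := hAc N
  rw [hD] at hN
  have hch : (((N + 3).choose 2 : ℕ) : K0 C(S4, ℂ)) + (((N + 1).choose 2 : ℕ) : K0 C(S4, ℂ))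
      = 2 * (((N + 2).choose 2 : ℕ) : K0 C(S4, ℂ)) + 1 := by
    exact_mod_cast congrArg (Nat.cast : ℕ → K0 C(S4, ℂ)) (S4aux.choose_second_diff N)
  refine ⟨r, (c N : ℤ) - r * ((N + 2).choose 2 : ℕ), ?_⟩
  push_cast
  change (((N + 3).choose 2 : ℕ) : K0 C(S4, ℂ)) * _ + (((N + 1).choose 2 : ℕ) : K0 C(S4, ℂ)) * _
    + _ = 0 at hN
  linear_combination hN - (kcl p - r) * hch

theorem K0_S4_span (hquant : QuantStmt) (a : K0 C(S4, ℂ)) :
    ∃ m k : ℤ, a = m + k * (kcl pB - 2) := by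
  obtain ⟨_, p, q, hp, hq, rfl⟩ := exists_kcl_sub a
  obtain ⟨m, k, h1⟩ := K0_S4_span_kcl hquant hp
  obtain ⟨m', k', h2⟩ := K0_S4_span_kcl hquant hq
  refine ⟨m - m', k - k', ?_⟩
  rw [h1, h2]
  push_cast
  ring

/-- a point of `CP²` -/
noncomputable def pt3 : CPd 3 := ⟨!![1, 0, 0; 0, 0, 0; 0, 0, 0], by
  refine ⟨⟨?_, ?_⟩, ?_⟩
  · ext i j
    fin_cases i <;> fin_cases j <;> simp [Matrix.mul_apply, Fin.sum_univ_three]
  · ext i j
    fin_cases i <;> fin_cases j <;> simp [conjTranspose_apply]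
  · simp [Matrix.trace, Fin.sum_univ_three]⟩

theorem K0_S4_indep_gmap (hquant : QuantStmt) (m k : ℤ)
    (h : pb gmap ((m : K0 C(S4, ℂ)) + k * (kcl pB - 2)) = 0) : m = 0 ∧ k = 0 := by
  obtain ⟨A, hA1, hAc, hAt, hAb⟩ := hquant 3 (by norm_num)
  have hm : m = 0 := by
    have h1 := congrArg (rk pt3) h
    rw [rk_pb, map_zero, map_add, map_mul, map_intCast, map_intCast, map_sub, map_ofNat,
      rk_kcl _ _ pB_pr, pB_trace, sub_self, mul_zero, add_zero] at h1
    exact_mod_cast h1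
  refine ⟨hm, ?_⟩
  subst hm
  rw [Int.cast_zero, zero_add, map_mul, map_intCast, map_sub, map_ofNat, pb_gmap_pB] at h
  have h' := congrArg (pb (AQ.sndC Unit (CPd 3))) h
  simp only [map_mul, map_sub, map_add, map_intCast, map_ofNat, map_zero] at h'
  have t1 := A.tr_box (X := Unit) (k : K0 C(Unit, ℂ)) taut_pr hAt
  have t2 := A.tr_box (X := Unit) (k : K0 C(Unit, ℂ)) tautB_pr hAb
  have t3 := A.tr_box (X := Unit) (-2 * k : K0 C(Unit, ℂ))
    (IsPr.one (ι := Fin 1)) (A.tc_one_rank hA1)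
  have t := AQ.Tr.add A (AQ.Tr.add A t1 t2) t3
  have hz : pb (AQ.fstC Unit (CPd 3)) (k : K0 C(Unit, ℂ)) * pb (AQ.sndC Unit (CPd 3)) (kcl (taut 3))
      + pb (AQ.fstC Unit (CPd 3)) (k : K0 C(Unit, ℂ))
        * pb (AQ.sndC Unit (CPd 3)) (kcl (tautB 3))
      + pb (AQ.fstC Unit (CPd 3)) (-2 * k : K0 C(Unit, ℂ))
          * pb (AQ.sndC Unit (CPd 3)) (kcl (1 : Matrix (Fin 1) (Fin 1) C(CPd 3, ℂ))) = 0 := by
    rw [← one_eq_kcl]
    simp only [map_mul, map_intCast, map_ofNat, map_neg, map_one]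
    linear_combination h'
  rw [hz] at t
  obtain ⟨N, hN⟩ := (AQ.Tr.zero A hA1 t).exists
  simp only [Pi.add_apply] at hN
  have hD : Fintype.card (A.α N) = (N + 2).choose 2 := hAc N
  rw [hD] at hN
  have hch : (((N + 3).choose 2 : ℕ) : K0 C(Unit, ℂ)) + (((N + 1).choose 2 : ℕ) : K0 C(Unit, ℂ))
      = 2 * (((N + 2).choose 2 : ℕ) : K0 C(Unit, ℂ)) + 1 := by
    exact_mod_cast congrArg (Nat.cast : ℕ → K0 C(Unit, ℂ)) (S4aux.choose_second_diff N)
  change (((N + 3).choose 2 : ℕ) : K0 C(Unit, ℂ)) * _ + (((N + 1).choose 2 : ℕ) : K0 C(Unit, ℂ)) * _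
    + _ = 0 at hN
  have hk : (k : K0 C(Unit, ℂ)) = 0 := by
    linear_combination hN - (k : K0 C(Unit, ℂ)) * hch
  exact (intCast_eq_zero_iff k).1 hk

theorem K0_S4_indep (hquant : QuantStmt) (m k : ℤ)
    (h : (m : K0 C(S4, ℂ)) + k * (kcl pB - 2) = 0) : m = 0 ∧ k = 0 :=
  K0_S4_indep_gmap hquant m k (by rw [h, map_zero])

end Pool.Agent.Helper75.KT
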