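import Pool.Agent.Helper75.KT.KSum
import Pool.Agent.Helper90.KTS4
import Pool.Agent.Helper96.KTAlg

/-!
# The lambda step (piece F1 for MP_0ce5f1_an)
-/

set_option linter.unusedSectionVars false

namespace Pool.Agent.Helper75.KT

open Matrix Filter Topology CPd Polynomial
open scoped Kronecker ComplexOrder Matrix.Norms.L2Operator

theorem lamP_pB (hq : QuantStmt) : lamP pB = 1 + C (kcl pB) * X + X ^ 2 := by
  have hmap : (lamP pB).map (pb gmap)
      = ((1 + C (kcl pB) * X + X ^ 2 : (K0 C(S4, ℂ))[X])).map (pb gmap) := by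
    rw [← lamP_map pB_pr gmap, lamP_eqv pB_gmap, lamP_fromBlocks taut_pr tautB_pr,
      lamP_line taut_pr (fun x => by rw [evM_taut]; exact x.tr),
      lamP_line tautB_pr (fun x => by rw [evM_tautB, Matrix.trace_transpose]; exact x.tr)]
    simp only [Polynomial.map_add, Polynomial.map_one, Polynomial.map_mul, Polynomial.map_C,
      Polynomial.map_X, Polynomial.map_pow, pb_gmap_pB, C_add]
    have h1 : (C (kcl (taut 3)) * C (kcl (tautB 3)) : (K0 C(CPd 3, ℂ))[X]) = 1 := by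
      rw [← C_mul, taut_mul_tautB, C_1]
    linear_combination (X ^ 2) * h1
  ext1 n
  obtain ⟨m, k, hmk⟩ := K0_S4_span hq ((lamP pB).coeff n
    - (1 + C (kcl pB) * X + X ^ 2 : (K0 C(S4, ℂ))[X]).coeff n)
  have h0 : pb gmap ((m : K0 C(S4, ℂ)) + k * (kcl pB - 2)) = 0 := by
    rw [← hmk, map_sub, ← Polynomial.coeff_map, ← Polynomial.coeff_map, hmap, sub_self]
  obtain ⟨hm, hk⟩ := K0_S4_indep_gmap hq m k h0
  rw [hm, hk, Int.cast_zero, zero_add, zero_mul] at hmk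
  exact sub_eq_zero.1 hmk

theorem lam_step (hq : QuantStmt) {V : Type*} [TopologicalSpace V] [CompactSpace V] (τ : C(V, S4))
    {ι : Type*} [Fintype ι] [DecidableEq ι] (E : Matrix ι ι C(V, ℂ)) (hE : IsPr E)
    {σ : Type*} (s : Finset σ) (e : σ → K0 C(V, ℂ)) (l : K0 C(V, ℂ))
    (he : ∀ k ∈ s, lamS (e k) = ((1 + C (e k) * X : (K0 C(V, ℂ))[X]) : PowerSeries (K0 C(V, ℂ))))
    (hl : lamS l = ((1 + C l * X : (K0 C(V, ℂ))[X]) : PowerSeries (K0 C(V, ℂ))))
    (hY : (1 - l) ^ 2 = 0)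
    (h : pb τ (kcl pB) + kcl E = 1 + l + 2 * ∑ k ∈ s, e k) :
    (1 - l) * (∏ k ∈ s, (1 - e k) ^ 2) ^ 2 = 0 := by
  have hpB : lamS (pb τ (kcl pB))
      = ((1 + C (pb τ (kcl pB)) * X + X ^ 2 : (K0 C(V, ℂ))[X]) : PowerSeries (K0 C(V, ℂ))) := by
    rw [pb_kcl τ pB_pr, lamS_kcl (pB_pr.map _), lamP_map pB_pr, lamP_pB hq, ← pb_kcl τ pB_pr]
    simp only [Polynomial.map_add, Polynomial.map_one, Polynomial.map_mul, Polynomial.map_C,
      Polynomial.map_X, Polynomial.map_pow]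
  have hS := congrArg lamS h
  rw [lamS_add, hpB, lamS_kcl hE, lamS_add, lamS_add, lamS_one, hl, two_mul, lamS_add, lamS_sum,
    Finset.prod_congr rfl he] at hS
  have hpoly : lamP E * (1 + C (2 + (pb τ (kcl pB) - 2)) * X + X ^ 2)
      = (1 + X) * (1 + C (1 - (1 - l)) * X) * ∏ k ∈ s, (1 + C (e k) * X) ^ 2 := by
    apply Polynomial.coe_injective
    have e1 : (2 + (pb τ (kcl pB) - 2)) = pb τ (kcl pB) := by ring
    have e2 : (1 - (1 - l)) = l := by ring
    rw [e1, e2, Finset.prod_pow]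
    have e3 : (((∏ k ∈ s, (1 + C (e k) * X) : (K0 C(V, ℂ))[X])) : PowerSeries (K0 C(V, ℂ)))
        = ∏ k ∈ s, ((1 + C (e k) * X : (K0 C(V, ℂ))[X]) : PowerSeries (K0 C(V, ℂ))) :=
      map_prod (Polynomial.coeToPowerSeries.ringHom (R := K0 C(V, ℂ))) _ _
    rw [Polynomial.coe_mul, Polynomial.coe_mul, Polynomial.coe_mul, Polynomial.coe_pow, e3]
    rw [mul_comm, hS]
    ring
  refine alg_key s (lamP E) (pb τ (kcl pB) - 2) (1 - l) e hpoly hY ?_
  have hb := congrArg (pb τ) b_sq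
  rw [map_pow, map_sub, map_ofNat, map_zero] at hb
  exact hb

end Pool.Agent.Helper75.KT
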